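import Pool.Agent.H91.CE.ONE

/-!
# A class of edges with the same prime
-/

set_option autoImplicit false

open Finset Matrix Pool.Agent.H10.CE

namespace Pool.Agent.H91.CE

open Classical in
theorem abs_prod_le {p S m : ℕ} (n : Fin m → ℕ) (T : Finset (Fin m)) (hp : p.Prime)
    (hS : 1 ≤ S) (hSp : S < p) {y : ℕ} (hy : y < p) :
    |∏ t ∈ T, wt S y (n t, p)| ≤ 1 + ∑ ρ ∈ T.image (fun t => n t % p),
      (if y = hit p S ρ then (p : ℝ) ^ (T.filter fun t => n t % p = ρ).card else 0) := by
  have hp1 : (1 : ℝ) ≤ p := by exact_mod_cast hp.one_lt.le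
  have hnn : ∀ ρ ∈ T.image (fun t => n t % p), (0 : ℝ) ≤
      (if y = hit p S ρ then (p : ℝ) ^ (T.filter fun t => n t % p = ρ).card else 0) := by
    intro ρ _
    split_ifs <;> positivity
  by_cases hex : ∃ ρ ∈ T.image (fun t => n t % p), y = hit p S ρ
  · obtain ⟨ρ, hρ, hy2⟩ := hex
    have hρp : ρ % p = ρ := by
      rw [mem_image] at hρ
      obtain ⟨t, -, rfl⟩ := hρ
      exact Nat.mod_mod _ _
    have h1 : |∏ t ∈ T, wt S y (n t, p)| ≤ (p : ℝ) ^ (T.filter fun t => n t % p = ρ).card := by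
      rw [Finset.abs_prod]
      have h2 : ∀ t ∈ T, |wt S y (n t, p)| ≤ if n t % p = ρ then (p : ℝ) else 1 := by
        intro t _
        unfold wt
        simp only [hit_iff hp hS hSp (n t) hy]
        have h3 : y = hit p S (n t) ↔ n t % p = ρ := by
          rw [hy2, hit_eq hp hS hSp, hρp]
          exact eq_comm
        by_cases h4 : n t % p = ρ
        · rw [if_pos (h3.mpr h4), if_pos h4, abs_of_nonneg (by linarith)]
          linarith
        · rw [if_neg fun h => h4 (h3.mp h), if_neg h4]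
          simp
      calc ∏ t ∈ T, |wt S y (n t, p)| ≤ ∏ t ∈ T, if n t % p = ρ then (p : ℝ) else 1 :=
            Finset.prod_le_prod (fun t _ => abs_nonneg _) h2
        _ = (p : ℝ) ^ (T.filter fun t => n t % p = ρ).card := by
            rw [← Finset.prod_filter, Finset.prod_const]
    have h5 := Finset.single_le_sum hnn hρ
    rw [if_pos hy2] at h5
    linarith
  · push Not at hex
    have h1 : |∏ t ∈ T, wt S y (n t, p)| ≤ 1 := by
      rw [Finset.abs_prod]
      refine Finset.prod_le_one (fun t _ => abs_nonneg _) fun t ht => ?_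
      unfold wt
      simp only [hit_iff hp hS hSp (n t) hy]
      have h3 : y ≠ hit p S (n t) := by
        have h4 := hex (n t % p) (mem_image_of_mem _ ht)
        intro h5
        apply h4
        rw [h5, hit_eq hp hS hSp, Nat.mod_mod]
      rw [if_neg h3]
      simp
    have h2 := Finset.sum_nonneg hnn
    linarith

open Classical in
theorem pow_le_U {p m : ℕ} (n : Fin m → ℕ) (T : Finset (Fin m)) (hp : p.Prime) {ρ : ℕ}
    (hρ : ρ ∈ T.image (fun t => n t % p)) :
    (p : ℝ) ^ (T.filter fun t => n t % p = ρ).card ≤ p * ∏ t ∈ T,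
      (if ∃ t' ∈ T, t' < t ∧ n t' % p = n t % p then (p : ℝ) else 1) := by
  have hp1 : (1 : ℝ) ≤ p := by exact_mod_cast hp.one_lt.le
  set A := T.filter fun t => n t % p = ρ with hA
  have hne : A.Nonempty := by
    rw [mem_image] at hρ
    obtain ⟨t, ht, h⟩ := hρ
    exact ⟨t, mem_filter.mpr ⟨ht, h⟩⟩
  obtain ⟨t0, ht0, hmin⟩ := A.exists_min_image id hne
  have h1 : (p : ℝ) ^ A.card = p * (p : ℝ) ^ (A.erase t0).card := by
    rw [card_erase_of_mem ht0, ← pow_succ', Nat.sub_add_cancel (card_pos.mpr hne)]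
  rw [h1]
  refine mul_le_mul_of_nonneg_left ?_ (by linarith)
  have h2 : (p : ℝ) ^ (A.erase t0).card = ∏ t ∈ T, if t ∈ A.erase t0 then (p : ℝ) else 1 := by
    rw [← Finset.prod_filter, Finset.prod_const]
    congr 2
    ext t
    rw [mem_filter]
    constructor
    · intro h
      exact ⟨(mem_filter.mp (mem_of_mem_erase h)).1, h⟩
    · exact fun h => h.2
  rw [h2]
  refine Finset.prod_le_prod (fun t _ => by split_ifs <;> linarith) fun t ht => ?_
  by_cases h3 : t ∈ A.erase t0
  · rw [if_pos h3, if_pos]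
    have h4 := (mem_filter.mp (mem_of_mem_erase h3)).2
    have h5 := (mem_filter.mp ht0)
    refine ⟨t0, h5.1, ?_, by rw [h4]; exact h5.2⟩
    have h6 : t0 ≤ t := hmin t (mem_of_mem_erase h3)
    exact lt_of_le_of_ne h6 (ne_of_mem_erase h3).symm
  · rw [if_neg h3]
    split_ifs <;> linarith

theorem succ_le_two_pow (a : ℕ) : ((a : ℝ) + 1) ≤ 2 ^ a := by
  have h : a + 1 ≤ 2 ^ a := Nat.lt_two_pow_self
  exact_mod_cast h

theorem pf_CLS : T_CLS := by
  classical
  intro p S m n T hp hS hSp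
  have hp1 : (1 : ℝ) ≤ p := by exact_mod_cast hp.one_lt.le
  set U : ℝ := ∏ t ∈ T, (if ∃ t' ∈ T, t' < t ∧ n t' % p = n t % p then (p : ℝ) else 1) with hU
  have hU1 : 1 ≤ U := by
    rw [hU]
    calc (1 : ℝ) = ∏ t ∈ T, (1 : ℝ) := by simp
      _ ≤ _ := Finset.prod_le_prod (fun _ _ => zero_le_one) fun t _ => by
          split_ifs <;> linarith
  have h1 : |∑ y ∈ range p, ∏ t ∈ T, wt S y (n t, p)| ≤
      ∑ y ∈ range p, (1 + ∑ ρ ∈ T.image (fun t => n t % p),
      (if y = hit p S ρ then (p : ℝ) ^ (T.filter fun t => n t % p = ρ).card else 0)) := by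
    refine (Finset.abs_sum_le_sum_abs _ _).trans (Finset.sum_le_sum fun y hy => ?_)
    exact abs_prod_le n T hp hS hSp (mem_range.mp hy)
  have h2 : ∑ y ∈ range p, (1 + ∑ ρ ∈ T.image (fun t => n t % p),
      (if y = hit p S ρ then (p : ℝ) ^ (T.filter fun t => n t % p = ρ).card else 0)) =
      p + ∑ ρ ∈ T.image (fun t => n t % p), (p : ℝ) ^ (T.filter fun t => n t % p = ρ).card := by
    rw [Finset.sum_add_distrib, Finset.sum_const, card_range, nsmul_eq_mul, mul_one,
      Finset.sum_comm]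
    congr 1
    refine Finset.sum_congr rfl fun ρ _ => ?_
    rw [Finset.sum_ite_eq', if_pos (mem_range.mpr (hit_lt hp S ρ))]
  have h3 : ∑ ρ ∈ T.image (fun t => n t % p), (p : ℝ) ^ (T.filter fun t => n t % p = ρ).card ≤
      T.card * (p * U) := by
    calc ∑ ρ ∈ T.image (fun t => n t % p), (p : ℝ) ^ (T.filter fun t => n t % p = ρ).card ≤
        ∑ ρ ∈ T.image (fun t => n t % p), p * U :=
          Finset.sum_le_sum fun ρ hρ => pow_le_U n T hp hρ
      _ = (T.image (fun t => n t % p)).card * (p * U) := by rw [Finset.sum_const, nsmul_eq_mul]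
      _ ≤ T.card * (p * U) := by
          refine mul_le_mul_of_nonneg_right ?_ (by positivity)
          exact_mod_cast card_image_le
  have h4 : (p : ℝ) ≤ p * U := by nlinarith
  calc |∑ y ∈ range p, ∏ t ∈ T, wt S y (n t, p)| ≤ p + T.card * (p * U) := by
        rw [h2] at h1
        linarith
    _ ≤ ((T.card : ℝ) + 1) * (p * U) := by linarith
    _ ≤ 2 ^ T.card * (p * U) :=
        mul_le_mul_of_nonneg_right (succ_le_two_pow _) (by positivity)
    _ = p * 2 ^ T.card * U := by ring

end Pool.Agent.H91.CE
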