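import Pool.Agent.H10.CE.Targets

/-!
# Independence of different primes
-/

set_option autoImplicit false

open Finset Matrix Pool.Agent.H10.CE

namespace Pool.Agent.H91.CE

theorem two_fac {q Q : ℕ} (hq : 0 < q) (hQ : 0 < Q) (hc : Nat.Coprime q Q) {f G : ℕ → ℝ}
    (hf : ∀ y, f (y + q) = f y) (hG : ∀ y, G (y + Q) = G y) :
    ∑ y ∈ range (q * Q), f y * G y = (∑ y ∈ range q, f y) * ∑ y ∈ range Q, G y := by
  have hf' : ∀ y, f (y % q) = f y := fun y => Function.Periodic.map_mod_nat hf y
  have hG' : ∀ y, G (y % Q) = G y := fun y => Function.Periodic.map_mod_nat hG y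
  rw [Finset.sum_mul_sum, ← Finset.sum_product']
  refine Finset.sum_bij (fun y _ => (y % q, y % Q)) ?_ ?_ ?_ ?_
  · intro y _
    rw [Finset.mem_product, Finset.mem_range, Finset.mem_range]
    exact ⟨Nat.mod_lt _ hq, Nat.mod_lt _ hQ⟩
  · intro y₁ h₁ y₂ h₂ h
    rw [Finset.mem_range] at h₁ h₂
    rw [Prod.mk.injEq] at h
    have h3 : y₁ ≡ y₂ [MOD q * Q] :=
      (Nat.modEq_and_modEq_iff_modEq_mul hc).mp ⟨h.1, h.2⟩
    have h4 : y₁ % (q * Q) = y₂ % (q * Q) := h3
    rwa [Nat.mod_eq_of_lt h₁, Nat.mod_eq_of_lt h₂] at h4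
  · rintro ⟨a, b⟩ hab
    rw [Finset.mem_product, Finset.mem_range, Finset.mem_range] at hab
    refine ⟨(Nat.chineseRemainder hc a b : ℕ), ?_, ?_⟩
    · rw [Finset.mem_range]
      exact Nat.chineseRemainder_lt_mul hc a b hq.ne' hQ.ne'
    · have h1 := (Nat.chineseRemainder hc a b).2
      have h2 : (Nat.chineseRemainder hc a b : ℕ) % q = a % q := h1.1
      have h3 : (Nat.chineseRemainder hc a b : ℕ) % Q = b % Q := h1.2
      rw [h2, h3, Nat.mod_eq_of_lt hab.1, Nat.mod_eq_of_lt hab.2]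
  · intro y _
    rw [hf', hG']

theorem pf_CRT : T_CRT := by
  intro T F hp hF
  induction T using Finset.induction_on with
  | empty => simp
  | insert q T hq ih =>
    have ih' := ih (fun p h => hp p (mem_insert_of_mem h)) fun p h => hF p (mem_insert_of_mem h)
    rw [Finset.prod_insert hq, Finset.prod_insert hq, ← ih']
    have hqp := hp q (mem_insert_self q T)
    have hQ : 0 < ∏ p ∈ T, p := Finset.prod_pos fun p h => (hp p (mem_insert_of_mem h)).pos
    have hc : Nat.Coprime q (∏ p ∈ T, p) := by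
      refine Nat.Coprime.prod_right fun p h => ?_
      refine (Nat.coprime_primes hqp (hp p (mem_insert_of_mem h))).mpr ?_
      rintro rfl
      exact hq h
    have hG : ∀ y, ∏ p ∈ T, F p (y + ∏ p ∈ T, p) = ∏ p ∈ T, F p y := by
      intro y
      refine Finset.prod_congr rfl fun p h => ?_
      obtain ⟨c, hc⟩ : p ∣ ∏ p ∈ T, p := Finset.dvd_prod_of_mem _ h
      have hper : Function.Periodic (F p) p := hF p (mem_insert_of_mem h)
      rw [hc, mul_comm]
      exact hper.nat_mul c y
    have h1 := two_fac (f := F q) (G := fun y => ∏ p ∈ T, F p y) hqp.pos hQ hc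
      (hF q (mem_insert_self q T)) hG
    rw [← h1]
    refine Finset.sum_congr rfl fun y _ => ?_
    rw [Finset.prod_insert hq]

end Pool.Agent.H91.CE
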