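import Pool.Agent.H10.CE.Targets

/-!
# The average of the product of the weights
-/

set_option autoImplicit false

open Finset Matrix Pool.Agent.H10.CE

namespace Pool.Agent.H91.CE

theorem wt_per (S y n p : ℕ) : wt S (y + p) (n, p) = wt S y (n, p) := by
  unfold wt
  have h : p ∣ S * (y + p) + n ↔ p ∣ S * y + n := by
    have h1 : S * (y + p) + n = (S * y + n) + p * S := by ring
    rw [h1]
    exact (Nat.dvd_add_left (Dvd.intro _ rfl))
  simp only [h]

theorem abs_wt_le {P S y n p : ℕ} (hp1 : 1 ≤ p) (hp : p ≤ 2 * P) :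
    |wt S y (n, p)| ≤ 2 * (P : ℝ) := by
  have h1 : (1 : ℝ) ≤ p := by exact_mod_cast hp1
  have h2 : (p : ℝ) ≤ 2 * P := by exact_mod_cast hp
  unfold wt
  split_ifs
  · rw [abs_of_nonneg (by simpa using h1)]
    simp only
    linarith
  · rw [abs_neg, abs_one]
    linarith

theorem pf_EXP (hINC : T_INC) (hCRT : T_CRT) (hONE : T_ONE) (hCLS : T_CLS) : T_EXP := by
  classical
  intro P S m Y₁ Y e hS hSP he
  have hP1 : 1 ≤ P := by omega
  have hPr : ∀ t, (e t).2.Prime ∧ P < (e t).2 ∧ (e t).2 ≤ 2 * P := by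
    intro t
    have h := he t
    unfold Pr at h
    rw [mem_filter, Finset.mem_Ioc] at h
    exact ⟨h.2, h.1.1, h.1.2⟩
  set T : Finset ℕ := univ.image fun t => (e t).2 with hT
  have hTm : ∀ t, (e t).2 ∈ T := fun t => mem_image_of_mem _ (mem_univ t)
  have hTp : ∀ p ∈ T, p.Prime ∧ P < p ∧ p ≤ 2 * P := by
    intro p hp
    rw [hT, mem_image] at hp
    obtain ⟨t, -, rfl⟩ := hp
    exact hPr t
  have hTc : T.card ≤ m := by
    calc T.card ≤ (univ : Finset (Fin m)).card := card_image_le
      _ = m := by simp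
  set Q : ℕ := ∏ p ∈ T, p with hQ
  have hQ1 : 1 ≤ Q := Finset.prod_pos fun p hp => (hTp p hp).1.pos
  have h2P : (1 : ℝ) ≤ 2 * P := by
    have : (1 : ℝ) ≤ P := by exact_mod_cast hP1
    linarith
  have hQm : (Q : ℝ) ≤ (2 * (P : ℝ)) ^ m := by
    rw [hQ]
    push_cast
    calc ∏ p ∈ T, (p : ℝ) ≤ ∏ p ∈ T, 2 * (P : ℝ) :=
          Finset.prod_le_prod (fun p _ => Nat.cast_nonneg _) fun p hp => by
            exact_mod_cast (hTp p hp).2.2
      _ = (2 * (P : ℝ)) ^ T.card := by rw [Finset.prod_const]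
      _ ≤ (2 * (P : ℝ)) ^ m := pow_le_pow_right₀ h2P hTc
  let G : ℕ → ℕ → ℝ := fun p y => ∏ t ∈ univ.filter (fun t => (e t).2 = p), wt S y ((e t).1, p)
  have hG : ∀ y, ∏ t, wt S y (e t) = ∏ p ∈ T, G p y := by
    intro y
    rw [← Finset.prod_fiberwise_of_maps_to (g := fun t => (e t).2) (t := T)
      (fun t _ => hTm t)]
    refine Finset.prod_congr rfl fun p _ => ?_
    refine Finset.prod_congr rfl fun t ht => ?_
    rw [mem_filter] at ht
    rw [← ht.2]
  have hGper : ∀ p ∈ T, ∀ y, G p (y + p) = G p y := by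
    intro p _ y
    exact Finset.prod_congr rfl fun t _ => wt_per S y (e t).1 p
  have hFper : ∀ y, ∏ t, wt S (y + Q) (e t) = ∏ t, wt S y (e t) := by
    intro y
    rw [hG, hG]
    refine Finset.prod_congr rfl fun p hp => ?_
    obtain ⟨c, hc⟩ : p ∣ Q := Finset.dvd_prod_of_mem _ hp
    have hper : Function.Periodic (G p) p := hGper p hp
    rw [hc, mul_comm]
    exact hper.nat_mul c y
  have hFB : ∀ y, |∏ t, wt S y (e t)| ≤ (2 * (P : ℝ)) ^ m := by
    intro y
    rw [Finset.abs_prod]
    calc ∏ t, |wt S y (e t)| ≤ ∏ _t : Fin m, 2 * (P : ℝ) :=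
          Finset.prod_le_prod (fun t _ => abs_nonneg _) fun t _ =>
            abs_wt_le (n := (e t).1) (hPr t).1.pos (hPr t).2.2
      _ = (2 * (P : ℝ)) ^ m := by simp
  have h1 := hINC Q Y₁ Y (fun y => ∏ t, wt S y (e t)) ((2 * (P : ℝ)) ^ m) hQ1 hFper hFB
  have h2 : (Q : ℝ) * (2 * (P : ℝ)) ^ m ≤ (2 * (P : ℝ)) ^ (2 * m) := by
    rw [two_mul m, pow_add]
    exact mul_le_mul_of_nonneg_right hQm (by positivity)
  have h3 : ∑ y ∈ range Q, ∏ t, wt S y (e t) = ∏ p ∈ T, ∑ y ∈ range p, G p y := by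
    rw [← hCRT T G (fun p hp => (hTp p hp).1) hGper]
    exact Finset.sum_congr rfl fun y _ => hG y
  have hQ0 : (0 : ℝ) < Q := by exact_mod_cast hQ1
  by_cases hgd : Gd e
  · rw [if_pos hgd]
    have h4 : |∏ p ∈ T, ∑ y ∈ range p, G p y| ≤ Q * 2 ^ m * ∏ t, uu e t := by
      rw [Finset.abs_prod]
      have h5 : ∀ p ∈ T, |∑ y ∈ range p, G p y| ≤
          p * 2 ^ (univ.filter (fun t => (e t).2 = p)).card *
            ∏ t ∈ univ.filter (fun t => (e t).2 = p), uu e t := by
        intro p hp
        have h6 := hCLS p S m (fun t => (e t).1) (univ.filter (fun t => (e t).2 = p))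
          (hTp p hp).1 hS (by have := (hTp p hp).2.1; omega)
        refine h6.trans (le_of_eq ?_)
        congr 1
        refine Finset.prod_congr rfl fun t ht => ?_
        rw [mem_filter] at ht
        unfold uu
        have hiff : (∃ t' ∈ univ.filter (fun t => (e t).2 = p), t' < t ∧
            (e t').1 % p = (e t).1 % p) ↔
            ∃ t' < t, (e t').2 = (e t).2 ∧ (e t').1 % (e t).2 = (e t).1 % (e t).2 := by
          rw [ht.2]
          constructor
          · rintro ⟨t', h7, h8, h9⟩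
            exact ⟨t', h8, (mem_filter.mp h7).2, h9⟩
          · rintro ⟨t', h8, h7, h9⟩
            exact ⟨t', mem_filter.mpr ⟨mem_univ _, h7⟩, h8, h9⟩
        by_cases h10 : ∃ t' < t, (e t').2 = (e t).2 ∧ (e t').1 % (e t).2 = (e t).1 % (e t).2
        · rw [if_pos (hiff.mpr h10), if_pos h10, ht.2]
        · rw [if_neg fun h => h10 (hiff.mp h), if_neg h10]
      calc ∏ p ∈ T, |∑ y ∈ range p, G p y| ≤
          ∏ p ∈ T, (p * 2 ^ (univ.filter (fun t => (e t).2 = p)).card *
            ∏ t ∈ univ.filter (fun t => (e t).2 = p), uu e t) :=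
            Finset.prod_le_prod (fun p _ => abs_nonneg _) h5
        _ = Q * 2 ^ m * ∏ t, uu e t := by
            rw [Finset.prod_mul_distrib, Finset.prod_mul_distrib,
              Finset.prod_fiberwise_of_maps_to (fun t _ => hTm t)]
            congr 2
            · rw [hQ]
              push_cast
              rfl
            · rw [Finset.prod_pow_eq_pow_sum]
              congr 1
              have h7 := Finset.card_eq_sum_card_fiberwise (f := fun t => (e t).2)
                (s := (univ : Finset (Fin m))) (t := T) (fun t _ => hTm t)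
              rw [← h7]
              simp
    rw [h3] at h1
    have h5 : (Y : ℝ) / Q * |∏ p ∈ T, ∑ y ∈ range p, G p y| ≤
        (Y : ℝ) * 2 ^ m * ∏ t, uu e t := by
      calc (Y : ℝ) / Q * |∏ p ∈ T, ∑ y ∈ range p, G p y| ≤
          (Y : ℝ) / Q * (Q * 2 ^ m * ∏ t, uu e t) :=
            mul_le_mul_of_nonneg_left h4 (by positivity)
        _ = (Y : ℝ) * 2 ^ m * ∏ t, uu e t := by
            field_simp
    linarith
  · rw [if_neg hgd, zero_add]
    unfold Gd at hgd
    push Not at hgd
    obtain ⟨t0, ht0⟩ := hgd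
    have h4 : ∏ p ∈ T, ∑ y ∈ range p, G p y = 0 := by
      refine Finset.prod_eq_zero (hTm t0) ?_
      have h5 : univ.filter (fun t => (e t).2 = (e t0).2) = {t0} := by
        ext t
        rw [mem_filter, mem_singleton]
        constructor
        · rintro ⟨-, h⟩
          by_contra hne
          exact ht0 t hne h
        · rintro rfl
          exact ⟨mem_univ _, rfl⟩
      have h6 : ∀ y, G (e t0).2 y = wt S y ((e t0).1, (e t0).2) := by
        intro y
        simp only [G, h5, Finset.prod_singleton]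
      simp only [h6]
      exact hONE (e t0).2 S (e t0).1 (hPr t0).1 hS (by have := (hPr t0).2.1; omega)
    rw [h3, h4, abs_zero, mul_zero, zero_add] at h1
    linarith

end Pool.Agent.H91.CE
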