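import Pool.Agent.H10.CE.Targets

/-!
# Sums of a periodic function
-/

set_option autoImplicit false

open Finset Matrix Pool.Agent.H10.CE

namespace Pool.Agent.H91.CE

theorem per_sum {F : ℕ → ℝ} {Q : ℕ} (h : ∀ y, F (y + Q) = F y) (a : ℕ) :
    ∑ y ∈ Ico a (a + Q), F y = ∑ y ∈ range Q, F y := by
  induction a with
  | zero => rw [zero_add, range_eq_Ico]
  | succ a ih =>
    rcases Nat.eq_zero_or_pos Q with hQ | hQ
    · subst hQ
      simp
    · have h1 : ∑ y ∈ Ico a (a + Q), F y = F a + ∑ y ∈ Ico (a + 1) (a + Q), F y :=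
        Finset.sum_eq_sum_Ico_succ_bot (by omega) _
      have h2 : ∑ y ∈ Ico (a + 1) (a + 1 + Q), F y
          = ∑ y ∈ Ico (a + 1) (a + Q), F y + F (a + Q) := by
        rw [show a + 1 + Q = (a + Q) + 1 by ring, Finset.sum_Ico_succ_top (by omega)]
      rw [h2, h a, ← ih, h1]
      ring

theorem pf_INC : T_INC := by
  intro Q Y₁ Y F B hQ hF hB
  have hB0 : 0 ≤ B := (abs_nonneg _).trans (hB 0)
  have hQ' : (0 : ℝ) < Q := by exact_mod_cast hQ
  induction Y using Nat.strong_induction_on with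
  | _ Y ih =>
    by_cases hY : Y < Q
    · have h1 : |∑ y ∈ Ico Y₁ (Y₁ + Y), F y| ≤ Y * B := by
        calc |∑ y ∈ Ico Y₁ (Y₁ + Y), F y| ≤ ∑ y ∈ Ico Y₁ (Y₁ + Y), |F y| :=
              Finset.abs_sum_le_sum_abs _ _
          _ ≤ ∑ y ∈ Ico Y₁ (Y₁ + Y), B := Finset.sum_le_sum fun y _ => hB y
          _ = Y * B := by
              rw [Finset.sum_const, Nat.card_Ico, nsmul_eq_mul]
              congr 2
              omega
      have h2 : (Y : ℝ) * B ≤ Q * B :=
        mul_le_mul_of_nonneg_right (by exact_mod_cast hY.le) hB0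
      have h3 : 0 ≤ (Y : ℝ) / Q * |∑ y ∈ range Q, F y| := by positivity
      linarith
    · push Not at hY
      have h0 := ih (Y - Q) (by omega)
      have hs : ∑ y ∈ Ico Y₁ (Y₁ + Y), F y = ∑ y ∈ Ico Y₁ (Y₁ + (Y - Q)), F y
          + ∑ y ∈ Ico (Y₁ + (Y - Q)) (Y₁ + (Y - Q) + Q), F y := by
        rw [Finset.sum_Ico_consecutive _ (by omega) (by omega)]
        congr 2
        omega
      rw [hs, per_sum hF]
      have h1 := abs_add_le (∑ y ∈ Ico Y₁ (Y₁ + (Y - Q)), F y) (∑ y ∈ range Q, F y)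
      have h2 : ((Y - Q : ℕ) : ℝ) = (Y : ℝ) - Q := by
        rw [Nat.cast_sub hY]
      rw [h2] at h0
      have h3 : ((Y : ℝ) - Q) / Q * |∑ y ∈ range Q, F y|
          = (Y : ℝ) / Q * |∑ y ∈ range Q, F y| - |∑ y ∈ range Q, F y| := by
        field_simp
      linarith

end Pool.Agent.H91.CE
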