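import Pool.Agent.H10.CE.Targets

/-!
# A prime which occurs once
-/

set_option autoImplicit false

open Finset Matrix Pool.Agent.H10.CE

namespace Pool.Agent.H91.CE

/-- the position which hits the residue of `n` -/
noncomputable def hit (p S n : ℕ) : ℕ := ((-(n : ZMod p)) * (S : ZMod p)⁻¹).val

theorem hit_iff {p S : ℕ} (hp : p.Prime) (hS : 1 ≤ S) (hSp : S < p) (n : ℕ) {y : ℕ}
    (hy : y < p) : p ∣ S * y + n ↔ y = hit p S n := by
  haveI : Fact p.Prime := ⟨hp⟩
  have hS0 : (S : ZMod p) ≠ 0 := by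
    intro h
    rw [ZMod.natCast_eq_zero_iff] at h
    have := Nat.le_of_dvd (by omega) h
    omega
  rw [← ZMod.natCast_eq_zero_iff]
  push_cast
  constructor
  · intro h
    have h1 : (y : ZMod p) = (-(n : ZMod p)) * (S : ZMod p)⁻¹ := by
      rw [eq_mul_inv_iff_mul_eq₀ hS0]
      linear_combination h
    unfold hit
    rw [← h1, ZMod.val_natCast_of_lt hy]
  · intro h
    have h1 : (y : ZMod p) = (-(n : ZMod p)) * (S : ZMod p)⁻¹ := by
      rw [h]
      unfold hit
      rw [ZMod.natCast_zmod_val]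
    rw [h1]
    field_simp
    ring

theorem hit_lt {p : ℕ} (hp : p.Prime) (S n : ℕ) : hit p S n < p := by
  haveI : Fact p.Prime := ⟨hp⟩
  exact ZMod.val_lt _

theorem hit_eq {p S : ℕ} (hp : p.Prime) (hS : 1 ≤ S) (hSp : S < p) {n n' : ℕ} :
    hit p S n = hit p S n' ↔ n % p = n' % p := by
  haveI : Fact p.Prime := ⟨hp⟩
  have hS0 : (S : ZMod p) ≠ 0 := by
    intro h
    rw [ZMod.natCast_eq_zero_iff] at h
    have := Nat.le_of_dvd (by omega) h
    omega
  have h1 : (n % p = n' % p) ↔ (n : ZMod p) = (n' : ZMod p) := (ZMod.natCast_eq_natCast_iff n n' p).symm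
  rw [h1]
  unfold hit
  constructor
  · intro h
    have h2 := ZMod.val_injective p h
    have h3 := mul_right_cancel₀ (inv_ne_zero hS0) h2
    exact neg_injective h3
  · intro h
    rw [h]

theorem pf_ONE : T_ONE := by
  intro p S n hp hS hSp
  have h1 : ∀ y ∈ range p, wt S y (n, p) = (if y = hit p S n then (p : ℝ) else 0) - 1 := by
    intro y hy
    rw [mem_range] at hy
    unfold wt
    simp only [hit_iff hp hS hSp n hy]
    split_ifs <;> ring
  rw [Finset.sum_congr rfl h1, Finset.sum_sub_distrib, Finset.sum_ite_eq', if_pos]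
  · simp
  · rw [mem_range]
    exact hit_lt hp S n

end Pool.Agent.H91.CE
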